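import Mathlib

/-! Row YB, part 1: the operator from `ℓ^1` given by a null sequence and its compactness. -/

set_option autoImplicit false

namespace Pool.Agent.Helper37.BQ

open Filter Topology
open scoped ENNReal

universe u

/-- the index type -/
abbrev YB_I : Type u := ULift.{u} ℕ

/-- the space `ℓ^1` -/
abbrev YB_L : Type u := lp (fun _ : YB_I.{u} => ℝ) 1

theorem YB_one : (1 : ℝ≥0∞).toReal = 1 := by simp

theorem YB_sum (a : YB_L.{u}) (s : Finset YB_I.{u}) : ∑ i ∈ s, |a i| ≤ ‖a‖ := by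
  have h := lp.sum_rpow_le_norm_rpow (p := 1) (by norm_num) a s
  simpa using h

theorem YB_summ (a : YB_L.{u}) : Summable fun i => |a i| :=
  summable_of_sum_le (fun _ => abs_nonneg _) (YB_sum a)

theorem YB_mem {b : YB_I.{u} → ℝ} {C : ℝ} (h : ∀ s : Finset YB_I.{u}, ∑ i ∈ s, |b i| ≤ C) :
    ∃ a : YB_L.{u}, (∀ i, a i = b i) ∧ ‖a‖ ≤ C := by
  have hC : 0 ≤ C := by simpa using h ∅
  have hm : Memℓp b 1 := memℓp_gen' (C := C) (fun s => by simpa using h s)
  refine ⟨⟨b, hm⟩, fun i => rfl, ?_⟩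
  refine lp.norm_le_of_forall_sum_le (by norm_num) hC fun s => ?_
  simpa using h s

variable {E : Type u} [NormedAddCommGroup E] [NormedSpace ℝ E] [CompleteSpace E]

theorem YB_wsum {w : YB_I.{u} → E} {W : ℝ} (hW : ∀ i, ‖w i‖ ≤ W) (a : YB_L.{u}) :
    Summable fun i => a i • w i := by
  refine Summable.of_norm_bounded (g := fun i => |a i| * W) ((YB_summ a).mul_right W) fun i => ?_
  rw [norm_smul, Real.norm_eq_abs]
  exact mul_le_mul_of_nonneg_left (hW i) (abs_nonneg _)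

/-- the operator -/
noncomputable def YB_q (w : YB_I.{u} → E) (W : ℝ) (hW : ∀ i, ‖w i‖ ≤ W) : YB_L.{u} →L[ℝ] E :=
  LinearMap.mkContinuous
    { toFun := fun a => ∑' i, a i • w i
      map_add' := fun a b => by
        rw [← (YB_wsum hW a).tsum_add (YB_wsum hW b)]
        refine tsum_congr fun i => ?_
        rw [lp.coeFn_add, Pi.add_apply, add_smul]
      map_smul' := fun c a => by
        rw [RingHom.id_apply, ← (YB_wsum hW a).tsum_const_smul c]
        refine tsum_congr fun i => ?_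
        rw [lp.coeFn_smul, Pi.smul_apply, smul_eq_mul, mul_smul] } W
    (fun a => by
      refine tsum_of_norm_bounded (g := fun i => |a i| * W) (a := W * ∑' i, |a i|) ?_ ?_ |>.trans ?_
      · rw [mul_comm]
        exact (YB_summ a).hasSum.mul_right W
      · intro i
        rw [norm_smul, Real.norm_eq_abs]
        exact mul_le_mul_of_nonneg_left (hW i) (abs_nonneg _)
      · have hW0 : 0 ≤ W := (norm_nonneg _).trans (hW ⟨0⟩)
        exact mul_le_mul_of_nonneg_left ((YB_summ a).tsum_le_of_sum_le (YB_sum a)) hW0)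

theorem YB_q_apply (w : YB_I.{u} → E) (W : ℝ) (hW : ∀ i, ‖w i‖ ≤ W) (a : YB_L.{u}) :
    YB_q w W hW a = ∑' i, a i • w i := rfl

/-- small tails -/
theorem YB_tail (w : YB_I.{u} → E) (W : ℝ) (hW : ∀ i, ‖w i‖ ≤ W)
    (h0 : Tendsto w cofinite (𝓝 0)) (ε : ℝ) (hε : 0 < ε) :
    ∃ s : Finset YB_I.{u}, ∀ a : YB_L.{u}, ‖YB_q w W hW a‖ ≤ (∑ i ∈ s, |a i|) * W + ε * ‖a‖ := by
  classical
  have hf : {i | ¬ ‖w i‖ < ε}.Finite := by
    have := (Metric.tendsto_nhds.1 h0) ε hε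
    simpa [dist_zero_right] using this
  refine ⟨hf.toFinset, fun a => ?_⟩
  have hW0 : 0 ≤ W := (norm_nonneg _).trans (hW ⟨0⟩)
  set s := hf.toFinset with hs
  have hb : ∀ i, ‖a i • w i‖ ≤ (if i ∈ s then |a i| * W else 0) + ε * |a i| := by
    intro i
    rw [norm_smul, Real.norm_eq_abs]
    by_cases hi : i ∈ s
    · rw [if_pos hi]
      have := mul_le_mul_of_nonneg_left (hW i) (abs_nonneg (a i))
      have : 0 ≤ ε * |a i| := by positivity
      linarith
    · rw [if_neg hi]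
      have h1 : ‖w i‖ < ε := by
        by_contra hc
        exact hi (hf.mem_toFinset.2 hc)
      have := mul_le_mul_of_nonneg_left h1.le (abs_nonneg (a i))
      linarith
  have hsum : HasSum (fun i => (if i ∈ s then |a i| * W else 0) + ε * |a i|)
      ((∑ i ∈ s, |a i|) * W + ε * ∑' i, |a i|) := by
    refine HasSum.add ?_ ((YB_summ a).hasSum.mul_left ε)
    rw [Finset.sum_mul]
    have h1 : ∑ i ∈ s, |a i| * W = ∑ i ∈ s, (if i ∈ s then |a i| * W else 0) :=
      Finset.sum_congr rfl fun i hi => by rw [if_pos hi]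
    rw [h1]
    exact hasSum_sum_of_ne_finset_zero fun i hi => if_neg hi
  rw [YB_q_apply]
  refine (tsum_of_norm_bounded hsum hb).trans ?_
  have := (YB_summ a).tsum_le_of_sum_le (YB_sum a)
  have := mul_le_mul_of_nonneg_left this hε.le
  linarith

/-- compactness of the operator -/
theorem YB_cpt (w : YB_I.{u} → E) (W : ℝ) (hW : ∀ i, ‖w i‖ ≤ W)
    (h0 : Tendsto w cofinite (𝓝 0)) (a : ℕ → YB_L.{u}) (C : ℝ) (e : ℕ → ℝ)
    (he : Tendsto e atTop (𝓝 0)) (ha : ∀ k, ‖a k‖ ≤ C + e k) :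
    ∃ b : YB_L.{u}, ‖b‖ ≤ C ∧ ∃ φ : ℕ → ℕ, StrictMono φ ∧
      Tendsto (fun k => YB_q w W hW (a (φ k))) atTop (𝓝 (YB_q w W hW b)) := by
  obtain ⟨B, hB⟩ : ∃ B, ∀ k, e k ≤ B := by
    obtain ⟨B, hB⟩ := he.bddAbove_range
    exact ⟨B, fun k => hB ⟨k, rfl⟩⟩
  set R := C + B with hR
  have haR : ∀ k, ‖a k‖ ≤ R := fun k => (ha k).trans (by linarith [hB k])
  have hK : IsCompact (Set.pi Set.univ fun _ : YB_I.{u} => Set.Icc (-R) R) :=
    isCompact_univ_pi fun _ => isCompact_Icc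
  have hmem : ∀ k, (fun i => a k i) ∈ Set.pi Set.univ fun _ : YB_I.{u} => Set.Icc (-R) R := by
    intro k i _
    have h1 := lp.norm_apply_le_norm (p := 1) (by norm_num) (a k) i
    rw [Real.norm_eq_abs] at h1
    exact abs_le.1 (h1.trans (haR k))
  obtain ⟨b, -, φ, hφ, hlim⟩ := hK.tendsto_subseq hmem
  have hlim' : ∀ i, Tendsto (fun k => a (φ k) i) atTop (𝓝 (b i)) := fun i =>
    (tendsto_pi_nhds.1 hlim) i
  have hbs : ∀ s : Finset YB_I.{u}, ∑ i ∈ s, |b i| ≤ C := by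
    intro s
    have h1 : Tendsto (fun k => ∑ i ∈ s, |a (φ k) i|) atTop (𝓝 (∑ i ∈ s, |b i|)) :=
      tendsto_finsetSum _ fun i _ => (hlim' i).abs
    have h2 : Tendsto (fun k => C + e (φ k)) atTop (𝓝 (C + 0)) :=
      (he.comp hφ.tendsto_atTop).const_add C
    rw [add_zero] at h2
    exact le_of_tendsto_of_tendsto' h1 h2 fun k => (YB_sum _ s).trans (ha _)
  obtain ⟨b', hb', hbn⟩ := YB_mem hbs
  refine ⟨b', hbn, φ, hφ, ?_⟩
  rw [Metric.tendsto_atTop]
  intro ε hε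
  have hR0 : 0 ≤ R := (norm_nonneg _).trans (haR 0)
  have hC0 : 0 ≤ C := by simpa using hbs ∅
  have hW0 : 0 ≤ W := (norm_nonneg _).trans (hW ⟨0⟩)
  obtain ⟨s, hs⟩ := YB_tail w W hW h0 (ε / (2 * (R + C + 1))) (by positivity)
  have h3 : Tendsto (fun k => ∑ i ∈ s, |a (φ k) i - b i|) atTop (𝓝 0) := by
    have : Tendsto (fun k => ∑ i ∈ s, |a (φ k) i - b i|) atTop (𝓝 (∑ i ∈ s, |b i - b i|)) :=
      tendsto_finsetSum _ fun i _ => ((hlim' i).sub_const _).abs
    simpa using this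
  obtain ⟨N, hN⟩ := (Metric.tendsto_atTop.1 h3) (ε / (2 * (W + 1))) (by positivity)
  refine ⟨N, fun k hk => ?_⟩
  rw [dist_eq_norm, ← map_sub]
  have h4 := hs (a (φ k) - b')
  have h5 : ∑ i ∈ s, |(a (φ k) - b') i| = ∑ i ∈ s, |a (φ k) i - b i| := by
    refine Finset.sum_congr rfl fun i _ => ?_
    rw [lp.coeFn_sub, Pi.sub_apply, hb']
  rw [h5] at h4
  have h6 : ∑ i ∈ s, |a (φ k) i - b i| < ε / (2 * (W + 1)) := by
    have := hN k hk
    rwa [Real.dist_eq, sub_zero, abs_of_nonneg (Finset.sum_nonneg fun _ _ => abs_nonneg _)] at this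
  have h7 : ‖a (φ k) - b'‖ ≤ R + C :=
    (norm_sub_le _ _).trans (add_le_add (haR _) hbn)
  have h8 : (∑ i ∈ s, |a (φ k) i - b i|) * W < ε / 2 := by
    have h9 : (∑ i ∈ s, |a (φ k) i - b i|) * W ≤ (∑ i ∈ s, |a (φ k) i - b i|) * (W + 1) :=
      mul_le_mul_of_nonneg_left (by linarith) (Finset.sum_nonneg fun _ _ => abs_nonneg _)
    have h10 : (∑ i ∈ s, |a (φ k) i - b i|) * (W + 1) < ε / (2 * (W + 1)) * (W + 1) :=
      mul_lt_mul_of_pos_right h6 (by linarith)
    have h11 : ε / (2 * (W + 1)) * (W + 1) = ε / 2 := by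
      have : W + 1 ≠ 0 := by positivity
      field_simp
    linarith
  have h12 : ε / (2 * (R + C + 1)) * ‖a (φ k) - b'‖ ≤ ε / 2 := by
    have h13 : ε / (2 * (R + C + 1)) * ‖a (φ k) - b'‖ ≤ ε / (2 * (R + C + 1)) * (R + C + 1) :=
      mul_le_mul_of_nonneg_left (by linarith) (by positivity)
    have h14 : ε / (2 * (R + C + 1)) * (R + C + 1) = ε / 2 := by
      have : R + C + 1 ≠ 0 := by positivity
      field_simp
    linarith
  linarith

end Pool.Agent.Helper37.BQ
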