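import Pool.Agent.Helper31.BQ.Stmts3
import Pool.Agent.Helper37.BQ.YBa

/-! Row YB: the space of a null sequence. -/

set_option autoImplicit false

namespace Pool.Agent.Helper37.BQ

open Filter Topology Pool.Agent.Helper31.BQ
open scoped ENNReal

universe u

section

variable {E : Type u} [NormedAddCommGroup E] [NormedSpace ℝ E]

/-- countably many functionals separating a separable subspace -/
theorem YB_fun (w : YB_I.{u} → E) : ∃ d : ℕ → E →L[ℝ] ℝ,
    ∀ v ∈ closure (Submodule.span ℝ (Set.range w) : Set E), (∀ i, d i v = 0) → v = 0 := by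
  have hsep : TopologicalSpace.IsSeparable
      (closure (Submodule.span ℝ (Set.range w) : Set E)) :=
    ((Set.countable_range w).isSeparable.span (R := ℝ)).closure
  obtain ⟨c, hc, hcl⟩ := hsep
  obtain ⟨s, hs⟩ : ∃ s : ℕ → E, insert (0 : E) c = Set.range s :=
    (hc.insert 0).exists_eq_range (Set.insert_nonempty _ _)
  choose d hd1 hd2 using fun n => exists_dual_vector'' ℝ (s n)
  refine ⟨d, fun v hv h0 => ?_⟩
  by_contra hne
  have hpos : 0 < ‖v‖ := norm_pos_iff.2 hne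
  obtain ⟨y, hy, hvy⟩ := Metric.mem_closure_iff.1 (hcl hv) (‖v‖ / 2) (by positivity)
  obtain ⟨n, rfl⟩ : y ∈ Set.range s := hs ▸ Set.mem_insert_of_mem _ hy
  rw [dist_eq_norm] at hvy
  have h1 : ‖s n‖ ≤ ‖v - s n‖ := by
    have h2 : (‖s n‖ : ℝ) = d n (s n - v) := by
      rw [map_sub, h0, sub_zero]
      exact (hd2 n).symm
    calc ‖s n‖ = d n (s n - v) := h2
      _ ≤ ‖d n (s n - v)‖ := le_abs_self _
      _ ≤ ‖d n‖ * ‖s n - v‖ := (d n).le_opNorm _
      _ ≤ 1 * ‖s n - v‖ := mul_le_mul_of_nonneg_right (hd1 n) (norm_nonneg _)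
      _ = ‖v - s n‖ := by rw [one_mul, norm_sub_rev]
  have h3 : ‖v‖ ≤ ‖v - s n‖ + ‖s n‖ := by
    have := norm_add_le (v - s n) (s n)
    rwa [sub_add_cancel] at this
  linarith

end

/-- the abstract part: a space `Y` with an injective "compact" map to `E` -/
theorem YB_abs {E Y : Type u} [NormedAddCommGroup E] [NormedSpace ℝ E]
    [NormedAddCommGroup Y] [NormedSpace ℝ Y] (j : Y →L[ℝ] E) (d : ℕ → E →L[ℝ] ℝ)
    (hd : ∀ z : Y, (∀ i, d i (j z) = 0) → z = 0)
    (hcpt : ∀ (z : ℕ → Y) (C : ℝ), (∀ k, ‖z k‖ ≤ C) → ∃ z0 : Y, ‖z0‖ ≤ C ∧ ∃ φ : ℕ → ℕ,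
      StrictMono φ ∧ Tendsto (fun k => j (z (φ k))) atTop (𝓝 (j z0))) :
    ∃ M : ℕ → Submodule ℝ Y, Antitone M ∧ PP Y M ∧ JC M j ∧
      ∀ T ∈ VM E M, ∃ T' ∈ FR E, ∀ z, (T : Y →L[ℝ] E) z = T' (j z) := by
  classical
  -- the maps to `ℝ^m`
  set D : (m : ℕ) → Y →L[ℝ] (Fin m → ℝ) := fun m =>
    ContinuousLinearMap.pi fun i : Fin m => (d i).comp j with hD
  have hDa : ∀ m (z : Y) (i : Fin m), D m z i = d i (j z) := fun m z i => rfl
  set M : ℕ → Submodule ℝ Y := fun m => LinearMap.ker (D m : Y →ₗ[ℝ] (Fin m → ℝ)) with hM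
  have hmem : ∀ m (z : Y), z ∈ M m ↔ ∀ i : ℕ, i < m → d i (j z) = 0 := by
    intro m z
    rw [hM]
    simp only [LinearMap.mem_ker]
    constructor
    · intro h i hi
      exact congrFun h ⟨i, hi⟩
    · intro h
      funext i
      exact h i i.2
  have hbar : ∀ m, ∃ G : (Y ⧸ M m) → (Fin m → ℝ), Continuous G ∧ Function.Injective G ∧
      ∀ z : Y, G ((M m).mkQ z) = D m z := by
    intro m
    have hle : M m ≤ LinearMap.ker (D m : Y →ₗ[ℝ] (Fin m → ℝ)) := le_refl _
    refine ⟨(M m).liftQ (D m : Y →ₗ[ℝ] (Fin m → ℝ)) hle, ?_, ?_, fun z => ?_⟩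
    · have h1 : Continuous (((M m).liftQ (D m : Y →ₗ[ℝ] (Fin m → ℝ)) hle) ∘ (M m).mkQ) := by
        have : (((M m).liftQ (D m : Y →ₗ[ℝ] (Fin m → ℝ)) hle) ∘ (M m).mkQ) = D m := by
          funext z
          exact Submodule.liftQ_apply _ _ _
        rw [this]
        exact (D m).continuous
      exact ((M m).isQuotientMap_mkQ.continuous_iff).2 h1
    · exact LinearMap.ker_eq_bot.1 (Submodule.ker_liftQ_eq_bot _ _ _ (le_refl _))
    · exact Submodule.liftQ_apply _ _ _
  have hcl : ∀ m, IsClosed (M m : Set Y) := fun m => (D m).isClosed_ker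
  refine ⟨M, ?_, ⟨hcl, ?_, ?_, ?_⟩, ?_, ?_⟩
  · intro m n hmn z hz
    rw [hmem] at hz ⊢
    exact fun i hi => hz i (lt_of_lt_of_le hi hmn)
  · intro m
    exact LinearEquiv.finiteDimensional
      (LinearMap.quotKerEquivRange (D m : Y →ₗ[ℝ] (Fin m → ℝ))).symm
  · intro x ε hε
    by_contra hc
    push Not at hc
    choose y hy1 hy2 using hc
    obtain ⟨z0, hz0, φ, hφ, hlim⟩ := hcpt y (‖x‖ - ε) fun k => (hy2 k).le
    have h1 : x = z0 := by
      have h2 : x - z0 = 0 := by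
        refine hd _ fun i => ?_
        have h3 : Tendsto (fun k => d i (j (y (φ k)))) atTop (𝓝 (d i (j z0))) :=
          ((d i).continuous.tendsto _).comp hlim
        have h4 : Tendsto (fun k => d i (j (y (φ k)))) atTop (𝓝 (d i (j x))) := by
          refine tendsto_const_nhds.congr' ?_
          filter_upwards [eventually_gt_atTop i] with k hk
          have h5 := (hmem (φ k) _).1 (hy1 (φ k)) i (lt_of_lt_of_le hk (hφ.id_le k))
          rw [map_sub, map_sub, sub_eq_zero] at h5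
          exact h5
        rw [map_sub, map_sub, tendsto_nhds_unique h4 h3, sub_self]
      exact sub_eq_zero.1 h2
    rw [← h1] at hz0
    linarith
  · intro x C hx hv
    obtain ⟨z0, -, φ, hφ, hlim⟩ := hcpt x C hx
    refine ⟨z0, fun m => ?_⟩
    obtain ⟨v, hv⟩ := hv m
    obtain ⟨G, hG1, hG2, hG3⟩ := hbar m
    have h1 : v = (M m).mkQ z0 := by
      apply hG2
      have h2 : Tendsto (fun k => D m (x (φ k))) atTop (𝓝 (G v)) := by
        have : Tendsto (fun k => G ((M m).mkQ (x (φ k)))) atTop (𝓝 (G v)) :=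
          (hG1.tendsto _).comp (hv.comp hφ.tendsto_atTop)
        simpa only [hG3] using this
      have h3 : Tendsto (fun k => D m (x (φ k))) atTop (𝓝 (D m z0)) := by
        rw [tendsto_pi_nhds]
        intro i
        exact ((d i).continuous.tendsto _).comp hlim
      rw [hG3]
      exact tendsto_nhds_unique h2 h3
    rw [← h1]
    exact hv
  · intro x C y hx hv
    refine tendsto_of_subseq_tendsto fun ns hns => ?_
    obtain ⟨z0, -, φ, hφ, hlim⟩ := hcpt (fun k => x (ns k)) C fun k => hx _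
    refine ⟨φ, ?_⟩
    have h1 : z0 = y := by
      have h2 : z0 - y = 0 := by
        refine hd _ fun i => ?_
        obtain ⟨G, hG1, hG2, hG3⟩ := hbar (i + 1)
        have h3 : Tendsto (fun k => D (i + 1) (x (ns (φ k)))) atTop (𝓝 (D (i + 1) y)) := by
          have : Tendsto (fun k => G ((M (i + 1)).mkQ (x (ns (φ k))))) atTop
              (𝓝 (G ((M (i + 1)).mkQ y))) :=
            (hG1.tendsto _).comp ((hv (i + 1)).comp (hns.comp hφ.tendsto_atTop))
          simpa only [hG3] using this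
        have h4 : Tendsto (fun k => d i (j (x (ns (φ k))))) atTop (𝓝 (d i (j y))) :=
          (tendsto_pi_nhds.1 h3) ⟨i, Nat.lt_succ_self i⟩
        have h5 : Tendsto (fun k => d i (j (x (ns (φ k))))) atTop (𝓝 (d i (j z0))) :=
          ((d i).continuous.tendsto _).comp hlim
        rw [map_sub, map_sub, tendsto_nhds_unique h5 h4, sub_self]
      exact sub_eq_zero.1 h2
    rw [← h1]
    exact hlim
  · rintro T ⟨m, hT⟩
    have hle : LinearMap.ker (D m : Y →ₗ[ℝ] (Fin m → ℝ)) ≤ LinearMap.ker (T : Y →ₗ[ℝ] E) := by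
      intro z hz
      exact hT z hz
    set f : Y →ₗ[ℝ] (Fin m → ℝ) := (D m : Y →ₗ[ℝ] (Fin m → ℝ)) with hf
    obtain ⟨S, hS⟩ : ∃ S : (Fin m → ℝ) →ₗ[ℝ] E, ∀ z, S (f z) = T z := by
      set g : LinearMap.range f →ₗ[ℝ] E :=
        ((LinearMap.ker f).liftQ (T : Y →ₗ[ℝ] E) hle) ∘ₗ
          (LinearMap.quotKerEquivRange f).symm.toLinearMap with hg
      obtain ⟨S, hS⟩ := LinearMap.exists_extend g
      refine ⟨S, fun z => ?_⟩
      have h1 : S (f z) = g ⟨f z, LinearMap.mem_range_self f z⟩ := by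
        rw [← hS]
        rfl
      have h2 : (LinearMap.quotKerEquivRange f).symm ⟨f z, LinearMap.mem_range_self f z⟩ =
          (LinearMap.ker f).mkQ z := by
        rw [LinearEquiv.symm_apply_eq]
        rfl
      rw [h1, hg]
      show ((LinearMap.ker f).liftQ (T : Y →ₗ[ℝ] E) hle)
        ((LinearMap.quotKerEquivRange f).symm ⟨f z, LinearMap.mem_range_self f z⟩) = T z
      rw [h2]
      exact Submodule.liftQ_apply _ _ _
    refine ⟨(LinearMap.toContinuousLinearMap S).comp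
      (ContinuousLinearMap.pi fun i : Fin m => d i), ?_, fun z => ?_⟩
    · show FiniteDimensional ℝ (LinearMap.range
        (((LinearMap.toContinuousLinearMap S).comp
          (ContinuousLinearMap.pi fun i : Fin m => d i) : E →L[ℝ] E) : E →ₗ[ℝ] E))
      have h1 : LinearMap.range
        (((LinearMap.toContinuousLinearMap S).comp
          (ContinuousLinearMap.pi fun i : Fin m => d i) : E →L[ℝ] E) : E →ₗ[ℝ] E) ≤
          LinearMap.range S := by
        rintro _ ⟨v, rfl⟩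
        exact ⟨_, rfl⟩
      exact Submodule.finiteDimensional_of_le h1
    · rw [← hS z]
      rfl

theorem st_YB : ST_YB.{u} := by
  intro E _ _ _ x hx
  -- weights
  set t : ℕ → ℝ := fun n => Real.sqrt (‖x n‖ + 1 / ((n : ℝ) + 1)) with ht
  have htpos : ∀ n, 0 < t n := fun n => Real.sqrt_pos.2 (by positivity)
  have htsq : ∀ n, t n ^ 2 = ‖x n‖ + 1 / ((n : ℝ) + 1) := fun n =>
    Real.sq_sqrt (by positivity)
  have ht0 : Tendsto t atTop (𝓝 0) := by
    have h1 : Tendsto (fun n => ‖x n‖ + 1 / ((n : ℝ) + 1)) atTop (𝓝 (0 + 0)) := by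
      refine Tendsto.add ?_ tendsto_one_div_add_atTop_nhds_zero_nat
      simpa using hx.norm
    have h2 := (Real.continuous_sqrt.tendsto (0 + 0)).comp h1
    rw [add_zero, Real.sqrt_zero] at h2
    exact h2
  set w : YB_I.{u} → E := fun i => (t i.down)⁻¹ • x i.down with hw
  have hwn : ∀ i, ‖w i‖ ≤ t i.down := by
    intro i
    rw [hw]
    simp only [norm_smul, norm_inv, Real.norm_eq_abs, abs_of_pos (htpos _)]
    rw [inv_mul_le_iff₀ (htpos _)]
    have h1 := htsq i.down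
    have h2 : 0 ≤ 1 / ((i.down : ℝ) + 1) := by positivity
    nlinarith
  have hw0 : Tendsto w cofinite (𝓝 0) := by
    have h1 : Tendsto (fun i : YB_I.{u} => i.down) cofinite atTop := by
      rw [← Nat.cofinite_eq_atTop]
      exact (ULift.down_injective).tendsto_cofinite
    exact squeeze_zero_norm hwn (ht0.comp h1)
  obtain ⟨W, hW⟩ : ∃ W, ∀ i, ‖w i‖ ≤ W := by
    obtain ⟨B, hB⟩ := ht0.bddAbove_range
    exact ⟨B, fun i => (hwn i).trans (hB ⟨_, rfl⟩)⟩
  set q : YB_L.{u} →L[ℝ] E := YB_q w W hW with hq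
  set N : Submodule ℝ YB_L.{u} := LinearMap.ker (q : YB_L.{u} →ₗ[ℝ] E) with hN
  have hNc : IsClosed (N : Set YB_L.{u}) := q.isClosed_ker
  have : IsClosed (N : Set YB_L.{u}) := hNc
  have hker : ∀ a ∈ N, q a = 0 := fun a ha => ha
  -- the induced map
  set jl : (YB_L.{u} ⧸ N) →ₗ[ℝ] E := N.liftQ (q : YB_L.{u} →ₗ[ℝ] E) (le_refl _) with hjl
  have hjlc : Continuous jl := by
    have h1 : Continuous (jl ∘ N.mkQ) := by
      have : (jl ∘ N.mkQ) = q := by
        funext z
        exact Submodule.liftQ_apply _ _ _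
      rw [this]
      exact q.continuous
    exact (N.isQuotientMap_mkQ.continuous_iff).2 h1
  set j : (YB_L.{u} ⧸ N) →L[ℝ] E := ⟨jl, hjlc⟩ with hj
  have hjm : ∀ a : YB_L.{u}, j (N.mkQ a) = q a := fun a => Submodule.liftQ_apply _ _ _
  have hji : ∀ z : YB_L.{u} ⧸ N, j z = 0 → z = 0 := by
    intro z hz
    obtain ⟨a, rfl⟩ := N.mkQ_surjective z
    rw [hjm] at hz
    exact (Submodule.Quotient.mk_eq_zero N).2 hz
  obtain ⟨d, hd⟩ := YB_fun w
  have hrange : ∀ a : YB_L.{u}, q a ∈ closure (Submodule.span ℝ (Set.range w) : Set E) := by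
    intro a
    have h1 : HasSum (fun i => a i • w i) (q a) := (YB_wsum hW a).hasSum
    refine mem_closure_of_tendsto h1 (Eventually.of_forall fun s => ?_)
    exact Submodule.sum_mem _ fun i _ => Submodule.smul_mem _ _
      (Submodule.subset_span ⟨i, rfl⟩)
  have hcpt : ∀ (z : ℕ → YB_L.{u} ⧸ N) (C : ℝ), (∀ k, ‖z k‖ ≤ C) →
      ∃ z0 : YB_L.{u} ⧸ N, ‖z0‖ ≤ C ∧ ∃ φ : ℕ → ℕ,
        StrictMono φ ∧ Tendsto (fun k => j (z (φ k))) atTop (𝓝 (j z0)) := by
    intro z C hz
    have hl : ∀ k, ∃ a : YB_L.{u}, N.mkQ a = z k ∧ ‖a‖ ≤ C + 1 / ((k : ℝ) + 1) := by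
      intro k
      have hpos : (0 : ℝ) < 1 / ((k : ℝ) + 1) := by positivity
      obtain ⟨a, ha1, ha2⟩ := Submodule.Quotient.norm_mk_lt (S := N) (z k) hpos
      exact ⟨a, ha1, (ha2.le).trans (by linarith [hz k])⟩
    choose a ha1 ha2 using hl
    obtain ⟨b, hb, φ, hφ, hlim⟩ := YB_cpt w W hW hw0 a C _
      tendsto_one_div_add_atTop_nhds_zero_nat ha2
    refine ⟨N.mkQ b, (Submodule.Quotient.norm_mk_le N b).trans hb, φ, hφ, ?_⟩
    have h1 : ∀ k, j (z (φ k)) = q (a (φ k)) := fun k => by rw [← ha1, hjm]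
    simp only [h1, hjm]
    exact hlim
  obtain ⟨M, hM1, hM2, hM3, hM4⟩ := YB_abs j d (fun z hz => by
    obtain ⟨a, rfl⟩ := N.mkQ_surjective z
    refine hji _ (hd _ ?_ hz)
    rw [hjm]
    exact hrange a) hcpt
  set δ : ℕ → YB_L.{u} := fun n => lp.single 1 (⟨n⟩ : YB_I.{u}) (t n) with hδ
  refine ⟨YB_L.{u} ⧸ N, inferInstance, inferInstance, M, j, fun n => N.mkQ (δ n), ?_, hM1, hM2,
    hM3, ?_, fun n => ?_, hM4⟩
  · infer_instance
  · refine squeeze_zero_norm (fun n => ?_) ht0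
    refine (Submodule.Quotient.norm_mk_le N (δ n)).trans ?_
    rw [hδ]
    simp only
    rw [lp.norm_single (by norm_num), Real.norm_eq_abs, abs_of_pos (htpos n)]
  · rw [hjm, hq, YB_q_apply, tsum_eq_single (⟨n⟩ : YB_I.{u})]
    · rw [hδ]
      simp only
      rw [lp.single_apply_self, hw]
      simp only
      rw [smul_smul, mul_inv_cancel₀ (htpos n).ne', one_smul]
    · intro i hi
      rw [hδ]
      simp only
      rw [lp.single_apply_ne _ _ _ hi, zero_smul]

end Pool.Agent.Helper37.BQ
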